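import Pool.Agent.W5h82.ECC.Alg

/-!
# GlobalECC has a constant-constant bicriteria approximation

Two hyperedges `e`, `f` of different colours which share a node `v` cannot both be satisfied unless
one of the two colours is paid for at `v`. So the deleted hyperedges and the paid pairs
`(node, colour)` form a hitting set for the quadruples `{e, f, (v, c e), (v, c f)}`, and conversely a
hitting set yields an assignment: besides the paid colours at most one colour is needed at a node,
and it is free. For a guess `D` of the optimum the hyperedges get weight about `p * b` and the pairs
get weight about `q * D`; then the optimal hitting set costs about `(p + q) * b * D`, and the local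
ratio method finds a hitting set which costs at most four times as much. The smallest guess for which
the bounds hold is taken.

`PolyTime` is Mathlib's `Turing.TM2ComputableInPolyTime` for functions on bit strings, `bits` is the
standard code of structured data by bit strings, with numbers in binary (`Pool/Agent/NPC/Defs.lean`).
The definitions about GlobalECC are in `Pool/Agent/W5h82/ECC/Defs.lean`.
-/

set_option autoImplicit false

namespace Pool.Agent.Results.MP_120f76_lc.ConstantBicriteria

open Pool.Agent.NPC Pool.Agent.W5h82.ECC

/-- For all `p, q ≥ 1` there is a polynomial-time algorithm which, given an instance `I` of GlobalECC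
with budget `b`, outputs an assignment `S` of nonempty sets of colours to the nodes (as the list of
the pairs of a node `v` and the list `s v` of the elements of `S v`) such that
`∑ (|S v| - 1) ≤ 4 (p + q) / q * b`, and the number of mistakes of `S` is at most `4 (p + q) / p`
times the number of mistakes of any assignment of cost at most `b`. For `p = q = 1` both factors
are `8`. -/
theorem result (p q : ℕ) (hp : 1 ≤ p) (hq : 1 ≤ q) :
    ∃ A : List Bool → List Bool, PolyTime A ∧
      ∀ I : Inst, WellFormed I → ∃ s : ℕ → List ℕ,
        A (bits I) = bits (I.nodes.map fun v => (v, s v)) ∧
        (∀ v, (s v).Nodup) ∧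
        IsAssignment I (fun v => (s v).toFinset) ∧
        q * cost I (fun v => (s v).toFinset) ≤ 4 * (p + q) * I.budget ∧
        ∀ S' : ℕ → Finset ℕ, IsAssignment I S' → cost I S' ≤ I.budget →
          p * mistakes I (fun v => (s v).toFinset) ≤ 4 * (p + q) * mistakes I S' := by
  refine ⟨fun x => bits ((unbits Inst x).elim [] (alg p q)), ?_, fun I hI => ?_⟩
  · apply polyTime_bits
    exact NPC.Poly.optElim (o := fun x => unbits Inst x) (g := fun _ => ([] : List (ℕ × List ℕ)))
      (h := fun _ I => alg p q I) poly_unbits (NPC.Poly.const _)
      (poly_alg p q (NPC.Poly.snd NPC.Poly.id))
  · refine ⟨fun v => sol I (wts p q I (guess p q I)) (hist p q I (guess p q I)) v, ?_,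
      fun v => sol_nodup _ v, isAssignment hI _, ?_, fun S' hS hb => ?_⟩
    · change bits ((unbits Inst (bits I)).elim [] (alg p q)) = _
      rw [unbits_bits]
      rfl
    · obtain ⟨S', hS, hb⟩ := exists_feasible hI
      exact (alg_correct hp hq hI hS hb).1
    · exact (alg_correct hp hq hI hS hb).2

end Pool.Agent.Results.MP_120f76_lc.ConstantBicriteria
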